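import Pool.Agent.Run7.h582.FM.Em3
import Pool.Agent.TH894.NF3

/-!
# The Kloosterman angles at `s` consecutive primes: all boxes, with square-root error against the finite-field model, and
all patterns of signs, for ALL integers within `N n ^ θ` of `lam n * x + c n`, for almost every `x` with respect to every measure with polynomial Fourier decay

Let `N n ≥ exp (n ^ η)` and let `lam n`, `c n` be real numbers with `N n / log ^ T (N n) ≤ lam n ≤ B N n` and
`|c n| ≤ B N n`. The theorem is about ALL the integers `a` at a distance of at most `(N n) ^ θ` from `lam n * x + c n`, for all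
large `n`, for almost every `x` with respect to EVERY finite Borel measure `μ` with bounded support whose Fourier transform is
`O (|ξ| ^ (-δ'))` for some `δ' > 0` (for example the natural measures on many sets of measure zero). The exponent `θ` depends
only on `μ`, `s` and `δ`, not on the sequences; for example `lam n = N n = 2 ^ n`, `c n = 0` gives all integers which share the
first `(1 - θ) n` binary digits with `2 ^ n x`.

From Mathlib: `Nat.nth Nat.Prime k`: the prime with the index `k`, starting with `k = 0`; `Set.OrdConnected`: intervals.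

Method: a measure with polynomial Fourier decay is replaced by finite families of real numbers with the same exponential
sums (`Pool.Agent.Run7.h582.FM`); the characteristic functions of the integer parts of the members decay at all frequencies
which are not close to integers, so that the families are uniformly distributed in residue classes with a power saving, for
all moduli up to a power (with the theorems of helper193 and helper384, `Pool.Agent.N193.PS`, `Pool.Agent.N384.MQ`); the high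
moments and the passage to all boxes are from the starting files (`Pool.Agent.TH869.SQ`), and so are the signs in the
finite-field model (`Pool.Agent.TH894.NF3`); then the lemma of Borel and Cantelli is used.
-/

set_option autoImplicit false
set_option maxHeartbeats 4000000

namespace Pool.Agent.Results.MP_6ea630_nt.FourierDecayIntegers

open Finset Filter Polynomial MeasureTheory

/-- `N n ≥ exp (n ^ η)`, `|c n| ≤ B N n` and `N n / log ^ T (N n) ≤ lam n ≤ B N n` for large `n`. -/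
def Scales (η : ℝ) (B T : ℕ) (N : ℕ → ℕ) (lam c : ℕ → ℝ) : Prop :=
  ∀ᶠ n : ℕ in atTop, Real.exp ((n : ℝ) ^ η) ≤ N n ∧ |c n| ≤ B * N n ∧ lam n ≤ B * N n ∧
    (N n : ℝ) ≤ lam n * Real.log (N n) ^ T

/-- `μ` is a finite Borel measure with bounded support and its Fourier transform `ξ ↦ ∫ exp (i ξ t) dμ (t)` is
`O (|ξ| ^ (-δ))` for some `δ > 0`. -/
def FourierDecay (μ : Measure ℝ) : Prop :=
  IsFiniteMeasure μ ∧ (∃ R : ℝ, μ (Set.Icc (-R) R)ᶜ = 0) ∧ ∃ C δ : ℝ, 0 < δ ∧ ∀ ξ : ℝ, ξ ≠ 0 →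
    ‖∫ t : ℝ, Complex.exp (((ξ * t : ℝ) : ℂ) * Complex.I) ∂μ‖ ≤ C * |ξ| ^ (-δ)

/-- The Kloosterman sum `S(a, 1; p)`. -/
noncomputable def kloosterman (p : ℕ) (a : ℤ) : ℝ :=
  ∑ x ∈ Ico 1 p, Real.cos (2 * Real.pi * ((((a : ZMod p) * (x : ZMod p) + (x : ZMod p)⁻¹).val : ℕ) : ℝ) / (p : ℝ))

/-- The angle `θ / π` in `[0, 1]`, where `2 p ^ (1 / 2) cos θ = S(a, 1; p)`, and `1 / 2` if `p` divides `a`. -/
noncomputable def angle (p : ℕ) (a : ℤ) : ℝ :=
  if (p : ℤ) ∣ a then 1 / 2 else Real.arccos (kloosterman p a / (2 * √(p : ℝ))) / Real.pi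

open Classical in
/-- The number of the indices `k < K` for which the angles at the `s` consecutive primes with the indices
`k, ..., k + s - 1` (the primes are numbered from `0`) are in the sets `I 0, ..., I (s - 1)`. -/
noncomputable def boxCount {s : ℕ} (I : Fin s → Set ℝ) (K : ℕ) (a : ℤ) : ℕ :=
  ((range K).filter (fun k => ∀ i : Fin s, angle (Nat.nth Nat.Prime (k + i)) a ∈ I i)).card

open Classical in
/-- The proportion of the residues `t` modulo `p` for which the angle at `P(t)` is in `S`. -/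
noncomputable def proportion (P : ℤ[X]) (p : ℕ) (S : Set ℝ) : ℝ :=
  (((range p).filter (fun t : ℕ => angle p (P.eval (t : ℤ)) ∈ S)).card : ℝ) / p

/-- The expected number: the sum over `k < K` of the product of the proportions at the `s` primes. -/
noncomputable def boxModel {s : ℕ} (P : ℤ[X]) (I : Fin s → Set ℝ) (K : ℕ) : ℝ :=
  ∑ k ∈ range K, ∏ i : Fin s, proportion P (Nat.nth Nat.Prime (k + i)) (I i)

open Classical in
/-- The number of the indices `k < K` such that for all `i < s` the prime `p` with the index `k + i` does not divide `a` and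
`σ i S(a, 1; p) > η p ^ (1 / 2)`. -/
noncomputable def signCount (s : ℕ) (σ : Fin s → ℝ) (η : ℝ) (K : ℕ) (a : ℤ) : ℕ :=
  ((range K).filter (fun k => ∀ i : Fin s, ¬ ((Nat.nth Nat.Prime (k + i) : ℕ) : ℤ) ∣ a ∧
    η * √((Nat.nth Nat.Prime (k + i) : ℕ) : ℝ) < σ i * kloosterman (Nat.nth Nat.Prime (k + i)) a)).card

/-- the Kloosterman sum as a function on the residue classes -/
noncomputable def kz (p : ℕ) (z : ZMod p) : ℝ :=
  ∑ x ∈ Ico 1 p, Real.cos (2 * Real.pi * (((z * (x : ZMod p) + (x : ZMod p)⁻¹).val : ℕ) : ℝ) / (p : ℝ))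

lemma k_eq (p : ℕ) (a : ℤ) : kloosterman p a = kz p (a : ZMod p) := rfl

lemma angle_congr (p : ℕ) {a b : ℤ} (h : (p : ℤ) ∣ a - b) : angle p a = angle p b := by
  have e : (a : ZMod p) = (b : ZMod p) := by
    rw [← sub_eq_zero, ← Int.cast_sub, ZMod.intCast_zmod_eq_zero_iff_dvd]
    exact h
  unfold angle
  rw [k_eq, k_eq, e]
  by_cases h1 : (p : ℤ) ∣ b
  · rw [if_pos h1, if_pos ((dvd_iff_dvd_of_dvd_sub h).2 h1)]
  · rw [if_neg h1, if_neg (fun h2 => h1 ((dvd_iff_dvd_of_dvd_sub h).1 h2))]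

/-- the interval of the angles with a given sign -/
noncomputable def side (η σ : ℝ) : Set ℝ :=
  if σ = 1 then Set.Iio (Real.arccos (η / 2) / Real.pi) else Set.Ioi (Real.arccos (-(η / 2)) / Real.pi)

lemma side_oc (η σ : ℝ) : (side η σ).OrdConnected := by
  unfold side
  split_ifs
  · exact Set.ordConnected_Iio
  · exact Set.ordConnected_Ioi

lemma arccos_lt (y z : ℝ) (hz0 : -1 < z) (hz1 : z < 1) : (Real.arccos y < Real.arccos z ↔ z < y) ∧
    (Real.arccos z < Real.arccos y ↔ y < z) := by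
  have h1 : ∀ u w : ℝ, -1 < u → u < 1 → u < w → Real.arccos w < Real.arccos u := by
    intro u w hu hu1 huw
    rcases le_or_gt w 1 with h | h
    · exact Real.strictAntiOn_arccos ⟨hu.le, hu1.le⟩ ⟨by linarith, h⟩ huw
    · rw [Real.arccos_of_one_le h.le]
      exact Real.arccos_pos.2 hu1
  have h2 : ∀ u w : ℝ, -1 < u → u < 1 → w < u → Real.arccos u < Real.arccos w := by
    intro u w hu hu1 huw
    rcases le_or_gt (-1) w with h | h
    · exact Real.strictAntiOn_arccos ⟨h, by linarith⟩ ⟨hu.le, hu1.le⟩ huw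
    · rw [Real.arccos_of_le_neg_one h.le]
      exact Real.strictAntiOn_arccos.injOn.ne_iff ⟨hu.le, hu1.le⟩ ⟨le_rfl, by norm_num⟩ |>.2 hu.ne' |>
        fun h3 => lt_of_le_of_ne (Real.arccos_le_pi u) (by rwa [Real.arccos_neg_one] at h3)
  refine ⟨⟨fun h => ?_, h1 z y hz0 hz1⟩, ⟨fun h => ?_, h2 z y hz0 hz1⟩⟩
  · by_contra hcon
    push Not at hcon
    rcases hcon.eq_or_lt with h3 | h3
    · rw [h3] at h
      exact lt_irrefl _ h
    · have := h2 z y hz0 hz1 h3
      linarith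
  · by_contra hcon
    push Not at hcon
    rcases hcon.eq_or_lt with h3 | h3
    · rw [h3] at h
      exact lt_irrefl _ h
    · have := h1 z y hz0 hz1 h3
      linarith

/-- the signs in terms of the angles -/
lemma side_iff (η : ℝ) (hη : 0 ≤ η) (hη1 : η ≤ 1 / 4) (σ : ℝ) (hσ : σ = 1 ∨ σ = -1) (p : ℕ) (hp : 0 < p) (a : ℤ) :
    angle p a ∈ side η σ ↔ ¬ (p : ℤ) ∣ a ∧ η * √(p : ℝ) < σ * kloosterman p a := by
  have hp0 : (0 : ℝ) < p := by exact_mod_cast hp
  have hs : 0 < √(p : ℝ) := Real.sqrt_pos.2 hp0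
  have hpi := Real.pi_pos
  unfold angle side
  rcases hσ with h | h
  · rw [h, if_pos rfl, one_mul, Set.mem_Iio]
    by_cases h1 : (p : ℤ) ∣ a
    · rw [if_pos h1]
      constructor
      · intro h2
        exfalso
        rw [lt_div_iff₀ hpi] at h2
        have h3 : Real.arccos (η / 2) ≤ Real.pi / 2 := Real.arccos_le_pi_div_two.2 (by linarith)
        linarith
      · rintro ⟨h2, _⟩
        exact absurd h1 h2
    · rw [if_neg h1, div_lt_div_iff_of_pos_right hpi, (arccos_lt _ (η / 2) (by linarith) (by linarith)).1,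
        lt_div_iff₀ (by positivity)]
      constructor
      · intro h2
        exact ⟨h1, by linarith⟩
      · rintro ⟨_, h2⟩
        linarith
  · have hne : ¬ ((-1 : ℝ) = 1) := by norm_num
    rw [h, if_neg hne, neg_one_mul, Set.mem_Ioi]
    by_cases h1 : (p : ℤ) ∣ a
    · rw [if_pos h1]
      constructor
      · intro h2
        exfalso
        rw [div_lt_iff₀ hpi] at h2
        have h3 := Real.arccos_neg (η / 2)
        have h4 : Real.arccos (η / 2) ≤ Real.pi / 2 := Real.arccos_le_pi_div_two.2 (by linarith)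
        linarith
      · rintro ⟨h2, _⟩
        exact absurd h1 h2
    · rw [if_neg h1, div_lt_div_iff_of_pos_right hpi, (arccos_lt _ (-(η / 2)) (by linarith) (by linarith)).2,
        div_lt_iff₀ (by positivity)]
      constructor
      · intro h2
        exact ⟨h1, by linarith⟩
      · rintro ⟨_, h2⟩
        linarith

open Classical in
lemma count_zmod (p : ℕ) [NeZero p] (Q : ZMod p → Prop) :
    ((range p).filter (fun t : ℕ => Q (t : ZMod p))).card = ((univ : Finset (ZMod p)).filter Q).card := by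
  apply card_bij (fun (t : ℕ) _ => (t : ZMod p))
  · intro t ht
    rw [mem_filter] at ht ⊢
    exact ⟨mem_univ _, ht.2⟩
  · intro t ht t' ht' h
    rw [mem_filter, mem_range] at ht ht'
    have h1 := congrArg ZMod.val h
    rwa [ZMod.val_cast_of_lt ht.1, ZMod.val_cast_of_lt ht'.1] at h1
  · intro z hz
    refine ⟨z.val, ?_, ZMod.natCast_zmod_val z⟩
    rw [mem_filter, mem_range] at *
    refine ⟨ZMod.val_lt z, ?_⟩
    rw [ZMod.natCast_zmod_val]
    exact hz.2

open Classical in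
/-- the proportion of a sign for linear polynomials -/
lemma prop_ge (η : ℝ) (hη : 0 ≤ η) (hη1 : η ≤ 1 / 4) (σ : ℝ) (hσ : σ = 1 ∨ σ = -1) (p : ℕ) (hp : p.Prime) (c₀ κ : ℤ)
    (hκ : ¬ (p : ℤ) ∣ κ) : 1 / 4 - η - 1 / √(p : ℝ) - 1 / p ≤ proportion (C c₀ + C κ * X) p (side η σ) := by
  haveI : Fact p.Prime := ⟨hp⟩
  haveI : NeZero p := ⟨hp.ne_zero⟩
  refine (Pool.Agent.TH894.NF.sg_prop η hη σ hσ p hp).trans (le_of_eq ?_)
  obtain ⟨Q, hQ⟩ : ∃ Q : ZMod p → Prop, Q = fun z => z ≠ 0 ∧ η * √(p : ℝ) < σ * kz p z := ⟨_, rfl⟩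
  have hdvd : ∀ a : ℤ, ¬ (p : ℤ) ∣ a ↔ (a : ZMod p) ≠ 0 := by
    intro a
    rw [Ne, ZMod.intCast_zmod_eq_zero_iff_dvd]
  unfold proportion Pool.Agent.TH894.NE.Pr
  rw [pow_one]
  congr 2
  have e1 : ((Pool.Agent.TH894.NE.box 1 p).filter (fun m => ¬ p ∣ m 0 ∧ η * √(p : ℝ) < σ * Pool.Agent.TH894.NF.kls p (m 0))).card =
      ((range p).filter (fun t : ℕ => Q (t : ZMod p))).card := by
    apply card_bij (fun m _ => m 0)
    · intro m hm
      simp only [mem_filter, Pool.Agent.TH894.NE.mem_box] at hm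
      simp only [mem_filter, mem_range]
      refine ⟨hm.1 0, ?_⟩
      rw [hQ]
      refine ⟨?_, hm.2.2⟩
      rw [Ne, ZMod.natCast_eq_zero_iff]
      exact hm.2.1
    · intro m _ m' _ hmm
      funext i
      rw [Subsingleton.elim i 0]
      exact hmm
    · intro a ha
      simp only [mem_filter, mem_range] at ha
      refine ⟨fun _ => a, ?_, rfl⟩
      simp only [mem_filter, Pool.Agent.TH894.NE.mem_box]
      rw [hQ] at ha
      refine ⟨fun _ => ha.1, ?_, ha.2.2⟩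
      have h3 := ha.2.1
      rw [Ne, ZMod.natCast_eq_zero_iff] at h3
      exact h3
  have e2 : ((range p).filter (fun t : ℕ => angle p ((C c₀ + C κ * X : ℤ[X]).eval (t : ℤ)) ∈ side η σ)).card =
      ((range p).filter (fun t : ℕ => Q ((c₀ : ZMod p) + (κ : ZMod p) * (t : ZMod p)))).card := by
    congr 1
    apply filter_congr
    intro t _
    rw [side_iff η hη hη1 σ hσ p hp.pos, hdvd, hQ, k_eq]
    simp only [eval_add, eval_mul, eval_C, eval_X]
    push_cast
    rfl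
  have hκ0 : (κ : ZMod p) ≠ 0 := by
    rw [← hdvd]
    exact hκ
  rw [e2, count_zmod p (fun z => Q ((c₀ : ZMod p) + (κ : ZMod p) * z))]
  have e3 : ((univ : Finset (ZMod p)).filter (fun z => Q ((c₀ : ZMod p) + (κ : ZMod p) * z))).card =
      ((univ : Finset (ZMod p)).filter Q).card := by
    apply card_bij (fun z _ => (c₀ : ZMod p) + (κ : ZMod p) * z)
    · intro z hz
      rw [mem_filter] at hz ⊢
      exact ⟨mem_univ _, hz.2⟩
    · intro z _ z' _ h
      exact mul_left_cancel₀ hκ0 (add_left_cancel h)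
    · intro w hw
      refine ⟨(w - c₀) / κ, ?_, ?_⟩
      · rw [mem_filter] at hw ⊢
        refine ⟨mem_univ _, ?_⟩
        rw [mul_div_cancel₀ _ hκ0, add_sub_cancel]
        exact hw.2
      · rw [mul_div_cancel₀ _ hκ0, add_sub_cancel]
  rw [e3, ← count_zmod p Q, ← e1]
  congr!

open Pool.Agent.TH894.NF (pow_diff)

/-- the model for the signs -/
lemma model_ge (s : ℕ) (hs : 1 ≤ s) (η ε : ℝ) (hη : 0 ≤ η) (hη1 : η ≤ 1 / 4) (hε : 0 < ε) (κ : ℤ) (hκ : κ ≠ 0) :
    ∃ k₁ : ℕ, ∀ n : ℕ, k₁ ≤ n → ∀ (c₀ : ℤ) (σ : Fin s → ℝ), (∀ i, σ i = 1 ∨ σ i = -1) →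
      ((1 / 4 - η) ^ s - ε / 4) * (n - k₁) ≤ boxModel (C c₀ + C κ * X) (fun i => side η (σ i)) n := by
  have hsr : (1 : ℝ) ≤ s := by exact_mod_cast hs
  obtain ⟨ε₁, hε₁⟩ : ∃ ε₁, ε₁ = ε / (4 * s) := ⟨_, rfl⟩
  have hε₁0 : 0 < ε₁ := by rw [hε₁]; positivity
  obtain ⟨k₁, hk₁⟩ := exists_nat_ge ((2 / ε₁) ^ 2 + 2 / ε₁ + 1 + κ.natAbs)
  refine ⟨k₁, fun n hge c₀ σ hσ => ?_⟩
  have hnn : ∀ (P : ℤ[X]) (p : ℕ) (S : Set ℝ), 0 ≤ proportion P p S := by
    intro P p S
    unfold proportion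
    positivity
  unfold boxModel
  have h1 : ∀ k ∈ range n, 0 ≤ ∏ i : Fin s, proportion (C c₀ + C κ * X) (Nat.nth Nat.Prime (k + i)) (side η (σ i)) :=
    fun k _ => prod_nonneg fun i _ => hnn _ _ _
  have hsub : Ico k₁ n ⊆ range n := by
    intro k hk
    rw [mem_Ico] at hk
    exact mem_range.2 hk.2
  refine le_trans ?_ (sum_le_sum_of_subset_of_nonneg hsub fun k hk _ => h1 k hk)
  have h2 : ∀ k ∈ Ico k₁ n, (1 / 4 - η) ^ s - ε / 4 ≤
      ∏ i : Fin s, proportion (C c₀ + C κ * X) (Nat.nth Nat.Prime (k + i)) (side η (σ i)) := by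
    intro k hk
    rw [mem_Ico] at hk
    by_cases hsm : 1 / 4 - η - ε₁ < 0
    · have h3 := h1 k (mem_range.2 hk.2)
      have h4 := pow_diff (1 / 4 - η) 0 le_rfl (by linarith) (by linarith) s
      rw [zero_pow (by omega)] at h4
      have h5 : (s : ℝ) * (1 / 4 - η - 0) ≤ s * ε₁ := mul_le_mul_of_nonneg_left (by linarith) (by linarith)
      have h6 : (s : ℝ) * ε₁ = ε / 4 := by rw [hε₁]; field_simp
      linarith
    · push Not at hsm
      have h4 := pow_diff (1 / 4 - η) (1 / 4 - η - ε₁) hsm (by linarith) (by linarith) s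
      have h6 : (s : ℝ) * (1 / 4 - η - (1 / 4 - η - ε₁)) = ε / 4 := by rw [hε₁]; field_simp; ring
      rw [h6] at h4
      refine h4.trans ?_
      calc (1 / 4 - η - ε₁) ^ s = ∏ _i : Fin s, (1 / 4 - η - ε₁) := by rw [prod_const, card_univ, Fintype.card_fin]
        _ ≤ _ := by
          apply prod_le_prod (fun i _ => hsm)
          intro i _
          have hpr : (Nat.nth Nat.Prime (k + i)).Prime := Nat.prime_nth_prime _
          have h9 : k₁ ≤ Nat.nth Nat.Prime (k + i) := by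
            have : k + i ≤ Nat.nth Nat.Prime (k + i) := (Nat.nth_strictMono Nat.infinite_setOfPred_prime).id_le (k + i)
            omega
          have h10 : (k₁ : ℝ) ≤ (Nat.nth Nat.Prime (k + i) : ℕ) := by exact_mod_cast h9
          have hnd : ¬ ((Nat.nth Nat.Prime (k + i) : ℕ) : ℤ) ∣ κ := by
            intro hd
            have h11 : Nat.nth Nat.Prime (k + i) ≤ κ.natAbs :=
              Nat.le_of_dvd (Int.natAbs_pos.2 hκ) (Int.natCast_dvd.1 hd)
            have h12 : ((Nat.nth Nat.Prime (k + i) : ℕ) : ℝ) ≤ κ.natAbs := by exact_mod_cast h11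
            have h13 : 0 ≤ (2 / ε₁) ^ 2 := sq_nonneg _
            have h14 : 0 < 2 / ε₁ := by positivity
            linarith
          have h7 := prop_ge η hη hη1 (σ i) (hσ i) (Nat.nth Nat.Prime (k + i)) hpr c₀ κ hnd
          refine le_trans ?_ h7
          obtain ⟨P, hP⟩ : ∃ P : ℝ, P = (Nat.nth Nat.Prime (k + i) : ℕ) := ⟨_, rfl⟩
          rw [← hP] at h10 ⊢
          have hκn : (0 : ℝ) ≤ κ.natAbs := Nat.cast_nonneg _
          have h11 : (2 / ε₁) ^ 2 + 2 / ε₁ + 1 ≤ P := by linarith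
          have h12 : 0 < 2 / ε₁ := by positivity
          have h13 : 1 / P ≤ ε₁ / 2 := by
            rw [div_le_div_iff₀ (by nlinarith) (by norm_num)]
            have : 2 / ε₁ ≤ P := by nlinarith [sq_nonneg (2 / ε₁)]
            rw [div_le_iff₀ hε₁0] at this
            linarith
          have h14 : 2 / ε₁ ≤ √P := Real.le_sqrt_of_sq_le (by nlinarith)
          have h15 : 1 / √P ≤ ε₁ / 2 := by
            rw [div_le_div_iff₀ (by linarith) (by norm_num)]
            rw [div_le_iff₀ hε₁0] at h14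
            linarith
          linarith
  calc ((1 / 4 - η) ^ s - ε / 4) * (n - k₁) = ∑ _k ∈ Ico k₁ n, ((1 / 4 - η) ^ s - ε / 4) := by
        rw [sum_const, Nat.card_Ico, nsmul_eq_mul, Nat.cast_sub hge]
        ring
    _ ≤ _ := sum_le_sum h2

open Classical in
lemma boxes (μ : Measure ℝ) (hμ : FourierDecay μ) (s : ℕ) (hs : 1 ≤ s) (δ : ℝ) (hδ : 0 < δ) :
    ∃ θ C : ℝ, 0 < θ ∧ θ ≤ 1 ∧ 1 ≤ C ∧ ∀ η : ℝ, 0 < η → ∀ (B T : ℕ) (N : ℕ → ℕ) (lam c : ℕ → ℝ),
      Scales η B T N lam c → ∀ (L : ℕ → ℕ) (P : ∀ n, Fin (L n) → ℤ[X]), (∀ᶠ n : ℕ in atTop, (L n : ℝ) ≤ (N n : ℝ) ^ θ) →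
      ∀ᵐ x ∂μ, ∀ᶠ n : ℕ in atTop, ∀ a : ℤ, |(a : ℝ) - (lam n * x + c n)| ≤ (N n : ℝ) ^ θ → ∀ l : Fin (L n), ∀ K : ℕ,
        (K : ℝ) ≤ (N n : ℝ) ^ θ → ∀ I : Fin s → Set ℝ, (∀ i, (I i).OrdConnected) →
          |(boxCount I K ((P n l).eval a) : ℝ) - boxModel (P n l) I K| ≤
            C * ((K : ℝ) ^ (1 / 2 + δ) * √(1 + Real.log (N n))) := by
  obtain ⟨θ, C, h1, h2, h3, H⟩ := Pool.Agent.Run7.h582.FM.ae_consec μ hμ s hs δ hδ
  refine ⟨θ, C, h1, h2, h3, fun η hη B T N lam c hS L P hL => ?_⟩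
  have hE := H η hη B T N lam c hS L (fun n l p z => angle p ((P n l).eval z)) (by
    intro n l p z
    apply angle_congr
    have e : z + (p : ℤ) - z = p := by ring
    have := (P n l).sub_dvd_eval_sub (z + (p : ℤ)) z
    rwa [e] at this) hL
  filter_upwards [hE] with x hx
  filter_upwards [hx] with n hn a ha l K hK I hI
  have h := hn a ha l K hK I hI
  rw [sum_sub_distrib] at h
  have e1 : (boxCount I K ((P n l).eval a) : ℝ) = ∑ k ∈ range K,
      Pool.Agent.TH869.SQ.ind I (fun i : Fin s => angle (Pool.Agent.TH869.SQ.pr (k + i)) ((P n l).eval a)) := by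
    unfold boxCount Pool.Agent.TH869.SQ.ind Pool.Agent.TH869.SQ.pr
    rw [sum_boole]
  have e2 : boxModel (P n l) I K = ∑ k ∈ range K, ∏ i : Fin s,
      Pool.Agent.TH869.SQ.mean (Pool.Agent.TH869.SQ.pr (k + i)) (fun t =>
        Pool.Agent.TH869.SQ.ind1 (I i) (angle (Pool.Agent.TH869.SQ.pr (k + i)) ((P n l).eval (t : ℤ)))) := by
    unfold boxModel proportion Pool.Agent.TH869.SQ.mean Pool.Agent.TH869.SQ.ind1 Pool.Agent.TH869.SQ.pr
    refine sum_congr rfl fun k _ => prod_congr rfl fun i _ => ?_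
    rw [sum_boole]
  rw [e1, e2]
  exact h

open Classical in
lemma signs (μ : Measure ℝ) (hμ : FourierDecay μ) (s : ℕ) (hs : 1 ≤ s) :
    ∃ θ : ℝ, 0 < θ ∧ ∀ ζ ε : ℝ, 0 ≤ ζ → ζ ≤ 1 / 4 → 0 < ε → ∀ κ : ℤ, κ ≠ 0 → ∀ η : ℝ, 0 < η →
      ∀ (B T : ℕ) (N : ℕ → ℕ) (lam c : ℕ → ℝ), Scales η B T N lam c → ∀ (L : ℕ → ℕ) (c₀ : ∀ n, Fin (L n) → ℤ),
      (∀ᶠ n : ℕ in atTop, (L n : ℝ) ≤ (N n : ℝ) ^ θ) →
      ∀ᵐ x ∂μ, ∀ᶠ n : ℕ in atTop, ∀ a : ℤ, |(a : ℝ) - (lam n * x + c n)| ≤ (N n : ℝ) ^ θ → ∀ l : Fin (L n), ∀ K : ℕ,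
        Real.log (N n) ^ 2 ≤ K → (K : ℝ) ≤ (N n : ℝ) ^ θ → ∀ σ : Fin s → ℝ, (∀ i, σ i = 1 ∨ σ i = -1) →
          ((1 / 4 - ζ) ^ s - ε) * K ≤ signCount s σ ζ K (c₀ n l + κ * a) := by
  obtain ⟨θ, C₁, h1, h2, h3, H⟩ := boxes μ hμ s hs (1 / 8) (by norm_num)
  refine ⟨θ, h1, fun ζ ε hζ hζ1 hε κ hκ η hη B T N lam c hS L c₀ hL => ?_⟩
  obtain ⟨k₁, hk₁⟩ := model_ge s hs ζ ε hζ hζ1 hε κ hκ
  have hNr : Tendsto (fun n : ℕ => (N n : ℝ)) atTop atTop := by
    have h1 : Tendsto (fun n : ℕ => Real.exp ((n : ℝ) ^ η)) atTop atTop :=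
      Real.tendsto_exp_atTop.comp ((tendsto_rpow_atTop hη).comp tendsto_natCast_atTop_atTop)
    exact tendsto_atTop_mono' _ (hS.mono fun n hn => hn.1) h1
  have t2 : Tendsto (fun n : ℕ => Real.log (N n)) atTop atTop := Real.tendsto_log_atTop.comp hNr
  have t3 : Tendsto (fun n : ℕ => Real.log (N n) ^ (1 / 4 : ℝ)) atTop atTop := (tendsto_rpow_atTop (by norm_num)).comp t2
  have ev := (hNr.eventually_ge_atTop 1).and ((t2.eventually_ge_atTop (4 * k₁ / ε + k₁ + 1)).and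
    (t3.eventually_ge_atTop (4 * C₁ * 2 / ε)))
  filter_upwards [H η hη B T N lam c hS L (fun n l => C (c₀ n l) + C κ * X) hL] with x hx
  filter_upwards [hx, ev] with n hn hev a ha l K hK1 hK2 σ hσ
  obtain ⟨hN1, q2, q3⟩ := hev
  have hN0 : (0 : ℝ) < N n := by linarith
  have hk0 : (0 : ℝ) ≤ k₁ := Nat.cast_nonneg _
  have hkε : 0 ≤ 4 * k₁ / ε := by positivity
  have hL1 : 1 ≤ Real.log (N n) := by linarith
  have hL2 : Real.log (N n) ≤ Real.log (N n) ^ 2 := by nlinarith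
  have hKL : Real.log (N n) ≤ K := hL2.trans hK1
  have hK0 : (0 : ℝ) < K := by linarith
  have hb := hn a ha l K hK2 (fun i => side ζ (σ i)) (fun i => side_oc ζ (σ i))
  have hcount : boxCount (fun i => side ζ (σ i)) K ((C (c₀ n l) + C κ * X : ℤ[X]).eval a) =
      signCount s σ ζ K (c₀ n l + κ * a) := by
    have e : (C (c₀ n l) + C κ * X : ℤ[X]).eval a = c₀ n l + κ * a := by
      simp only [eval_add, eval_mul, eval_C, eval_X]
    rw [e]
    unfold boxCount signCount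
    congr 1
    apply filter_congr
    intro k _
    exact forall_congr' fun i => side_iff ζ hζ hζ1 (σ i) (hσ i) _ (Nat.prime_nth_prime _).pos _
  rw [hcount] at hb
  have hmod := hk₁ K (by
    have : (k₁ : ℝ) ≤ K := by linarith
    exact_mod_cast this) (c₀ n l) σ hσ
  -- the error term
  have herr : C₁ * ((K : ℝ) ^ (1 / 2 + 1 / 8 : ℝ) * √(1 + Real.log (N n))) ≤ ε / 4 * K := by
    have r1 : √(1 + Real.log (N n)) ≤ 2 * Real.log (N n) ^ (1 / 2 : ℝ) := by
      rw [← Real.sqrt_eq_rpow]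
      have : 1 + Real.log (N n) ≤ 4 * Real.log (N n) := by linarith
      calc √(1 + Real.log (N n)) ≤ √(4 * Real.log (N n)) := Real.sqrt_le_sqrt this
        _ = 2 * √(Real.log (N n)) := by
            rw [Real.sqrt_mul (by norm_num), show (4 : ℝ) = 2 ^ 2 by norm_num, Real.sqrt_sq (by norm_num)]
    have r2 : Real.log (N n) ^ (3 / 4 : ℝ) ≤ (K : ℝ) ^ (3 / 8 : ℝ) := by
      calc Real.log (N n) ^ (3 / 4 : ℝ) = (Real.log (N n) ^ 2) ^ (3 / 8 : ℝ) := by
            rw [← Real.rpow_natCast, ← Real.rpow_mul (by linarith)]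
            norm_num
        _ ≤ _ := Real.rpow_le_rpow (by positivity) hK1 (by norm_num)
    have r3 : Real.log (N n) ^ (1 / 2 : ℝ) * Real.log (N n) ^ (1 / 4 : ℝ) = Real.log (N n) ^ (3 / 4 : ℝ) := by
      rw [← Real.rpow_add (by linarith)]
      norm_num
    have r4 : (K : ℝ) = (K : ℝ) ^ (1 / 2 + 1 / 8 : ℝ) * (K : ℝ) ^ (3 / 8 : ℝ) := by
      rw [← Real.rpow_add hK0]
      norm_num
    have r5 : C₁ * √(1 + Real.log (N n)) ≤ ε / 4 * (K : ℝ) ^ (3 / 8 : ℝ) := by
      have r6 : 4 * C₁ * 2 / ε * Real.log (N n) ^ (1 / 2 : ℝ) ≤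
          Real.log (N n) ^ (1 / 2 : ℝ) * Real.log (N n) ^ (1 / 4 : ℝ) := by
        rw [mul_comm]
        exact mul_le_mul_of_nonneg_left q3 (by positivity)
      rw [r3] at r6
      have r7 := r6.trans r2
      have r8 : C₁ * (2 * Real.log (N n) ^ (1 / 2 : ℝ)) = ε / 4 * (4 * C₁ * 2 / ε * Real.log (N n) ^ (1 / 2 : ℝ)) := by
        field_simp
      calc C₁ * √(1 + Real.log (N n)) ≤ C₁ * (2 * Real.log (N n) ^ (1 / 2 : ℝ)) :=
            mul_le_mul_of_nonneg_left r1 (by linarith)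
        _ = _ := r8
        _ ≤ _ := mul_le_mul_of_nonneg_left r7 (by positivity)
    calc C₁ * ((K : ℝ) ^ (1 / 2 + 1 / 8 : ℝ) * √(1 + Real.log (N n))) =
          (K : ℝ) ^ (1 / 2 + 1 / 8 : ℝ) * (C₁ * √(1 + Real.log (N n))) := by ring
      _ ≤ (K : ℝ) ^ (1 / 2 + 1 / 8 : ℝ) * (ε / 4 * (K : ℝ) ^ (3 / 8 : ℝ)) := mul_le_mul_of_nonneg_left r5 (by positivity)
      _ = ε / 4 * ((K : ℝ) ^ (1 / 2 + 1 / 8 : ℝ) * (K : ℝ) ^ (3 / 8 : ℝ)) := by ring
      _ = ε / 4 * K := by rw [← r4]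
  have e2 : (k₁ : ℝ) ≤ ε / 4 * K := by
    have h4 : (4 * k₁ / ε : ℝ) ≤ K := by linarith
    rw [div_le_iff₀ hε] at h4
    linarith
  have e3 : (1 / 4 - ζ) ^ s ≤ 1 := pow_le_one₀ (by linarith) (by linarith)
  have e4 : ((1 / 4 - ζ) ^ s - ε / 4) * k₁ ≤ ε / 4 * K := by nlinarith
  have hb2 := (abs_le.1 hb).1
  nlinarith

/-- Let `μ` be a measure with `FourierDecay` and let `s ≥ 1`.

**(1)** For every `δ > 0` there are `θ > 0` and `C` such that for all `η > 0` and all sequences with `Scales η B T N lam c` the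
following holds. For every `n` let polynomials `P n l ∈ ℤ[T]`, `l < L n`, be given, `L n ≤ (N n) ^ θ` for large `n`. For
`μ`-almost every `x`, for all large `n`, for ALL the integers `a` at a distance of at most `(N n) ^ θ` from `lam n * x + c n`
and all `l`, with `b = P n l (a)`: for EVERY `K ≤ (N n) ^ θ` and EVERY product of `s` intervals, the number of the `k < K` such
that the angles of `S(b, 1; p)` at the `s` consecutive primes with the numbers `k, ..., k + s - 1` are in the intervals differs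
from the expected number (the sum over `k < K` of the product of the proportions, over the residues `t` modulo the primes, for
the angles of `S(P n l (t), 1; p)`) by at most `C K ^ (1 / 2 + δ) (1 + log (N n)) ^ (1 / 2)`.

**(2)** There is `θ > 0` such that for all `0 ≤ ζ ≤ 1 / 4`, `ε > 0`, `κ ≠ 0`, all sequences with `Scales η B T N lam c` and all
integers `c₀ n l`, `l < L n`, with `L n ≤ (N n) ^ θ`, the following holds for `μ`-almost every `x`, all large `n`, ALL the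
integers `a` at a distance of at most `(N n) ^ θ` from `lam n * x + c n`, and all `l`, with `b = c₀ n l + κ a`: every pattern of
`s` signs occurs for the sums `S(b, 1; p)` at `s` consecutive primes, with sums of absolute value greater than
`ζ p ^ (1 / 2)`, for at least `((1 / 4 - ζ) ^ s - ε) K` of the indices `k < K`, for all `K` with
`(log (N n)) ^ 2 ≤ K ≤ (N n) ^ θ`. -/
theorem result (μ : Measure ℝ) (hμ : FourierDecay μ) (s : ℕ) (hs : 1 ≤ s) :
    (∀ δ : ℝ, 0 < δ → ∃ θ C : ℝ, 0 < θ ∧ 0 < C ∧ ∀ η : ℝ, 0 < η → ∀ (B T : ℕ) (N : ℕ → ℕ) (lam c : ℕ → ℝ),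
      Scales η B T N lam c → ∀ (L : ℕ → ℕ) (P : ∀ n, Fin (L n) → ℤ[X]), (∀ᶠ n : ℕ in atTop, (L n : ℝ) ≤ (N n : ℝ) ^ θ) →
      ∀ᵐ x ∂μ, ∀ᶠ n : ℕ in atTop, ∀ a : ℤ, |(a : ℝ) - (lam n * x + c n)| ≤ (N n : ℝ) ^ θ → ∀ l : Fin (L n), ∀ K : ℕ,
        (K : ℝ) ≤ (N n : ℝ) ^ θ → ∀ I : Fin s → Set ℝ, (∀ i, (I i).OrdConnected) →
          |(boxCount I K ((P n l).eval a) : ℝ) - boxModel (P n l) I K| ≤
            C * ((K : ℝ) ^ (1 / 2 + δ) * √(1 + Real.log (N n)))) ∧
    (∃ θ : ℝ, 0 < θ ∧ ∀ ζ ε : ℝ, 0 ≤ ζ → ζ ≤ 1 / 4 → 0 < ε → ∀ κ : ℤ, κ ≠ 0 → ∀ η : ℝ, 0 < η →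
      ∀ (B T : ℕ) (N : ℕ → ℕ) (lam c : ℕ → ℝ), Scales η B T N lam c → ∀ (L : ℕ → ℕ) (c₀ : ∀ n, Fin (L n) → ℤ),
      (∀ᶠ n : ℕ in atTop, (L n : ℝ) ≤ (N n : ℝ) ^ θ) →
      ∀ᵐ x ∂μ, ∀ᶠ n : ℕ in atTop, ∀ a : ℤ, |(a : ℝ) - (lam n * x + c n)| ≤ (N n : ℝ) ^ θ → ∀ l : Fin (L n), ∀ K : ℕ,
        Real.log (N n) ^ 2 ≤ K → (K : ℝ) ≤ (N n : ℝ) ^ θ → ∀ σ : Fin s → ℝ, (∀ i, σ i = 1 ∨ σ i = -1) →
          ((1 / 4 - ζ) ^ s - ε) * K ≤ signCount s σ ζ K (c₀ n l + κ * a)) := by
  refine ⟨fun δ hδ => ?_, signs μ hμ s hs⟩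
  obtain ⟨θ, C, h1, _, h3, H⟩ := boxes μ hμ s hs δ hδ
  exact ⟨θ, C, h1, by linarith, H⟩

end Pool.Agent.Results.MP_6ea630_nt.FourierDecayIntegers
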