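import Pool.Agent.Run7.h724.SignD
import Pool.Agent.Run7.h724.SignZ

/-!
# The horizontal Sato-Tate law and the signs of the Kloosterman sums over the extensions `F_(p^m)`

From Mathlib: `GaloisField p m`, the field with `p ^ m` elements; `Algebra.trace`; `ZMod.val`, the
representative in `[0, p)`; `Nat.primeCounting`.

Method: the cosine is the sum of the signs of `cos (j θ)` with the coefficients
`(π / 4) μ(j) χ(j) / j`, where `χ` is the odd character modulo `4`, uniformly with an error smaller
than every power of `1 / log J` for the partial sums `j ≤ J` (Moebius inversion of the square wave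
and Davenport's bound for `∑ μ(n) e(n α)`, in the form of `Pool.Agent.Run7.h776.MS`); an inequality
of the type of Erdos and Turan for the Sato-Tate measure; the recursion for the Kloosterman sums
over the extensions, which by `Pool.Agent.H498R2.Kl` is available together with Weil's bound.
The sums do not vanish, since the sum of `p ^ m - 1` roots of unity of order `p` is not zero.
-/

set_option autoImplicit false

namespace Pool.Agent.Results.MP_6ea630_nt.SignsOfLiftedSums

open Finset Filter Topology

/-- The Kloosterman sum `S(a, 1; p)`. -/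
noncomputable def kloosterman (p : ℕ) (a : ℤ) : ℝ :=
  ∑ x ∈ Finset.Ico 1 p, Real.cos (2 * Real.pi *
    ((((a : ZMod p) * (x : ZMod p) + (x : ZMod p)⁻¹).val : ℕ) : ℝ) / (p : ℝ))

/-- The angle `θ` in `[0, π]` with `S(a, 1; p) = 2 √p cos θ` (for `p` not dividing `a`). -/
noncomputable def angle (p : ℕ) (a : ℤ) : ℝ :=
  Real.arccos (kloosterman p a / (2 * Real.sqrt (p : ℝ)))

/-- The Kloosterman sum `K_m(a; p)` over the field with `p ^ m` elements: the sum of
`cos (2 π Tr(a x + 1 / x) / p)` over the elements `x ≠ 0` of this field, where `Tr` is the trace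
to the field with `p` elements. (For `p` prime; otherwise `0`.) -/
noncomputable def kloostermanExt (p m : ℕ) (a : ℤ) : ℝ :=
  if h : p.Prime then
    haveI : Fact p.Prime := ⟨h⟩
    ∑ᶠ x : (GaloisField p m)ˣ, Real.cos (2 * Real.pi *
      ((Algebra.trace (ZMod p) (GaloisField p m)
        ((a : GaloisField p m) * (x : GaloisField p m) + (x : GaloisField p m)⁻¹)).val : ℝ) / (p : ℝ))
  else 0

/-- The Sato-Tate measure of `[α, β]`. -/
noncomputable def satoTate (α β : ℝ) : ℝ := (2 / Real.pi) * ∫ u in α..β, Real.sin u ^ 2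

/-- The probability that `K_m > 0`: it is `1 / 2 + 1 / π` for `m = 2` and `1 / 2` for the other `m`. -/
noncomputable def freq (m : ℕ) : ℝ := if m = 2 then 1 / 2 + 1 / Real.pi else 1 / 2

/-- A finite set of pairs `(p, a)`, where `p` is a prime which does not divide `a`. -/
def Admissible (S : Finset (ℕ × ℤ)) : Prop :=
  ∀ x ∈ S, x.1.Prime ∧ Nat.Coprime x.1 x.2.natAbs

open Classical in
/-- The number of the pairs `(p, a)` in `S` with `α ≤ θ_p(a) ≤ β`. -/
noncomputable def inArc (S : Finset (ℕ × ℤ)) (α β : ℝ) : ℕ :=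
  (S.filter fun x => α ≤ angle x.1 x.2 ∧ angle x.1 x.2 ≤ β).card

open Classical in
/-- The number of the pairs `(p, a)` in `S` with `K_m(a; p) > 0`. -/
noncomputable def positive (S : Finset (ℕ × ℤ)) (m : ℕ) : ℕ :=
  (S.filter fun x => 0 < kloostermanExt x.1 m x.2).card

open Classical in
/-- The number of the primes `p ≤ N` which do not divide `a` and have the property `P`. -/
noncomputable def primeCount (a : ℤ) (P : ℕ → Prop) (N : ℕ) : ℕ :=
  ((Finset.range (N + 1)).filter fun p => p.Prime ∧ Nat.Coprime p a.natAbs ∧ P p).card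

open Pool.Agent.Run7.h724

lemma angle_mem (p : ℕ) (a : ℤ) : 0 ≤ angle p a ∧ angle p a ≤ Real.pi :=
  ⟨Real.arccos_nonneg _, Real.arccos_le_pi _⟩

/-- the sign of `K_m` -/
lemma ext_sign {p : ℕ} {a : ℤ} (hp : p.Prime) (h : Nat.Coprime p a.natAbs) (m : ℕ) (hm : 1 ≤ m) :
    2 * (if 0 < kloostermanExt p m a then (1 : ℝ) else 0) - 1 =
      (-1) ^ (m + 1) * Real.sign (Real.cos (m * angle p a)) := by
  have : Fact p.Prime := ⟨hp⟩
  have h1 : Real.sign (kloostermanExt p m a) =
    (-1) ^ (m + 1) * Real.sign (Real.cos (m * angle p a)) := Lift.lifted_sign h m hm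
  have h2 : kloostermanExt p m a ≠ 0 := Lift.lifted_ne_zero h m hm
  rw [← h1]
  rcases lt_or_gt_of_ne h2 with h3 | h3
  · rw [if_neg (not_lt.2 h3.le), Real.sign_of_neg h3]
    norm_num
  · rw [if_pos h3, Real.sign_of_pos h3]
    norm_num

lemma freq_eq (m : ℕ) : 2 * freq m - 1 = (-1) ^ (m + 1) * Sign.sm m := by
  have hpi : Real.pi ≠ 0 := Real.pi_ne_zero
  unfold freq Sign.sm
  split_ifs with h
  · subst h
    field_simp
    norm_num
  · norm_num

/-- sums of signs -/
lemma sum_sign {ι : Type} (S : Finset ι) (p : ι → ℕ) (a : ι → ℤ)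
    (hS : ∀ i ∈ S, (p i).Prime ∧ Nat.Coprime (p i) (a i).natAbs) (m : ℕ) (hm : 1 ≤ m)
    (n : ℕ) (hn : (n : ℝ) = ∑ i ∈ S, (if 0 < kloostermanExt (p i) m (a i) then (1 : ℝ) else 0)) :
    2 * ((n : ℝ) - S.card * freq m) = (-1) ^ (m + 1) *
      (∑ i ∈ S, Real.sign (Real.cos (m * angle (p i) (a i))) - S.card * Sign.sm m) := by
  have h1 : ∑ i ∈ S, (2 * (if 0 < kloostermanExt (p i) m (a i) then (1 : ℝ) else 0) - 1) =
      ∑ i ∈ S, (-1) ^ (m + 1) * Real.sign (Real.cos (m * angle (p i) (a i))) :=
    sum_congr rfl fun i hi => ext_sign (hS i hi).1 (hS i hi).2 m hm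
  rw [sum_sub_distrib, ← mul_sum, ← mul_sum, ← hn, sum_const, nsmul_eq_mul, mul_one] at h1
  have h2 := freq_eq m
  linear_combination h1 - (S.card : ℝ) * h2

lemma dev_eq (S : Finset (ℕ × ℤ)) (hS : Admissible S) (m : ℕ) (hm : 1 ≤ m) :
    |∑ x ∈ S, Real.sign (Real.cos (m * angle x.1 x.2)) - S.card * Sign.sm m| =
      2 * |(positive S m : ℝ) - S.card * freq m| := by
  classical
  have hn : (positive S m : ℝ) =
      ∑ x ∈ S, (if 0 < kloostermanExt x.1 m x.2 then (1 : ℝ) else 0) := by
    unfold positive
    rw [card_filter]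
    push_cast
    rfl
  have h1 := sum_sign S (fun x => x.1) (fun x => x.2) hS m hm _ hn
  have h2 := congrArg abs h1
  rw [abs_mul, abs_mul, abs_pow, abs_neg, abs_one, one_pow, one_mul, abs_two] at h2
  exact h2.symm

lemma inArc_eq (S : Finset (ℕ × ℤ)) (α β : ℝ) :
    inArc S α β = Sign.ct S (fun x => angle x.1 x.2) α β := by
  unfold inArc Sign.ct
  congr

lemma st_eq (α β : ℝ) : satoTate α β = Sign.FF β - Sign.FF α := Sign.FF_integral α β

/-- the primes `p ≤ N` not dividing `a` -/
def pr (a : ℤ) (N : ℕ) : Finset ℕ :=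
  (Finset.range (N + 1)).filter fun p => p.Prime ∧ Nat.Coprime p a.natAbs

lemma pr_mem {a : ℤ} {N p : ℕ} (h : p ∈ pr a N) : p.Prime ∧ Nat.Coprime p a.natAbs :=
  (mem_filter.1 h).2

lemma pr_card (a : ℤ) (ha : a ≠ 0) :
    Tendsto (fun N : ℕ => ((pr a N).card : ℝ) / Nat.primeCounting N) atTop (𝓝 1) := by
  have hpc : ∀ N, Nat.primeCounting N = ((Finset.range (N + 1)).filter Nat.Prime).card := by
    intro N
    rw [Nat.primeCounting, Nat.primeCounting', Nat.count_eq_card_filter_range]
  have h1 : ∀ N, Nat.primeCounting N ≤ (pr a N).card + a.natAbs.primeFactors.card := by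
    intro N
    rw [hpc]
    refine (card_le_card ?_).trans (card_union_le _ _)
    intro p hp
    rw [mem_filter] at hp
    rw [mem_union]
    by_cases h : Nat.Coprime p a.natAbs
    · exact Or.inl (mem_filter.2 ⟨hp.1, hp.2, h⟩)
    · right
      rw [Nat.mem_primeFactors]
      refine ⟨hp.2, ?_, Int.natAbs_ne_zero.2 ha⟩
      by_contra hcon
      exact h ((Nat.Prime.coprime_iff_not_dvd hp.2).2 hcon)
  have h2 : ∀ N, (pr a N).card ≤ Nat.primeCounting N := by
    intro N
    rw [hpc]
    apply card_le_card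
    intro p hp
    unfold pr at hp
    rw [mem_filter] at hp ⊢
    exact ⟨hp.1, hp.2.1⟩
  have h3 : Tendsto (fun N : ℕ => (Nat.primeCounting N : ℝ)) atTop atTop :=
    tendsto_natCast_atTop_atTop.comp Nat.tendsto_primeCounting
  have h4 : Tendsto (fun N : ℕ => (a.natAbs.primeFactors.card : ℝ) / Nat.primeCounting N) atTop
      (𝓝 0) := h3.const_div_atTop _
  have h5 : Tendsto (fun N : ℕ => ((Nat.primeCounting N : ℝ) - (pr a N).card) /
      Nat.primeCounting N) atTop (𝓝 0) := by
    refine squeeze_zero (fun N => ?_) (fun N => ?_) h4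
    · refine div_nonneg ?_ (Nat.cast_nonneg _)
      have : ((pr a N).card : ℝ) ≤ Nat.primeCounting N := by exact_mod_cast h2 N
      linarith
    · refine div_le_div_of_nonneg_right ?_ (Nat.cast_nonneg _)
      have : (Nat.primeCounting N : ℝ) ≤ (pr a N).card + a.natAbs.primeFactors.card := by
        exact_mod_cast h1 N
      linarith
  have h6 := h5.const_sub 1
  rw [sub_zero] at h6
  refine h6.congr' ?_
  filter_upwards [h3.eventually_gt_atTop 0] with N hN
  field_simp
  ring

/-- Let `K_m(a; p)` be the Kloosterman sum over the field with `p ^ m` elements. For every `A` there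
is a constant `C` such that for every finite set `S` of pairs `(p, a)`, where `p` is a prime which
does not divide `a`, every `M ≥ 2` and every interval `[α, β]` in `[0, π]`, the number of the pairs
in `S` with `α ≤ θ_p(a) ≤ β` differs from `|S|` times the Sato-Tate measure of `[α, β]` by at most
`C (|S| / (log M) ^ A + ∑ (τ(m) / m) |P_m - |S| f_m|)`, where the sum is over `m ≤ M`, `P_m` is the
number of the pairs in `S` with `K_m(a; p) > 0`, and `f_m = 1 / 2`, except for `f_2 = 1 / 2 + 1 / π`.
Conversely, if this difference is at most `D` for all `[α, β]`, then `|P_m - |S| f_m| ≤ m D` for all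
`m ≥ 1`. For every `a ≠ 0`, the limit law of Katz for `θ_p(a)`, where `a` is fixed and `p ≤ N` is a
prime not dividing `a`, holds if and only if for each `m ≥ 1` the proportion of the primes `p ≤ N`
with `K_m(a; p) > 0` has the limit `f_m`. -/
theorem result :
    (∀ A : ℕ, ∃ C : ℝ, 0 < C ∧ ∀ S : Finset (ℕ × ℤ), Admissible S → ∀ M : ℕ, 2 ≤ M →
      ∀ α β : ℝ, 0 ≤ α → α ≤ β → β ≤ Real.pi →
      |(inArc S α β : ℝ) - S.card * satoTate α β| ≤ C * (S.card / Real.log M ^ A +
        ∑ m ∈ Finset.Icc 1 M, (m.divisors.card : ℝ) / m *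
          |(positive S m : ℝ) - S.card * freq m|)) ∧
    (∀ S : Finset (ℕ × ℤ), Admissible S → ∀ D : ℝ,
      (∀ α β : ℝ, 0 ≤ α → α ≤ β → β ≤ Real.pi →
        |(inArc S α β : ℝ) - S.card * satoTate α β| ≤ D) →
      ∀ m : ℕ, 1 ≤ m → |(positive S m : ℝ) - S.card * freq m| ≤ m * D) ∧
    (∀ a : ℤ, a ≠ 0 →
      ((∀ α β : ℝ, 0 ≤ α → α ≤ β → β ≤ Real.pi →
        Tendsto (fun N : ℕ => (primeCount a (fun p => α ≤ angle p a ∧ angle p a ≤ β) N : ℝ) /
          Nat.primeCounting N) atTop (𝓝 (satoTate α β))) ↔
      ∀ m : ℕ, 1 ≤ m →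
        Tendsto (fun N : ℕ => (primeCount a (fun p => 0 < kloostermanExt p m a) N : ℝ) /
          Nat.primeCounting N) atTop (𝓝 (freq m)))) := by
  refine ⟨fun A => ?_, fun S hS D hD m hm => ?_, fun a ha => ?_⟩
  · obtain ⟨C, hC, h⟩ := Sign.disc A
    refine ⟨2 * C, by positivity, fun S hS M hM α β h0 h1 h2 => ?_⟩
    have h3 := h M hM S (fun x => angle x.1 x.2) (fun x _ => angle_mem _ _) α β h0 h1 h2
    rw [inArc_eq, st_eq]
    refine h3.trans ?_
    have h4 : ∑ m ∈ Finset.Icc 1 M, (m.divisors.card : ℝ) / m *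
        Sign.dv S (fun x => angle x.1 x.2) m = 2 * ∑ m ∈ Finset.Icc 1 M,
        (m.divisors.card : ℝ) / m * |(positive S m : ℝ) - S.card * freq m| := by
      rw [mul_sum]
      refine sum_congr rfl fun m hm => ?_
      rw [mem_Icc] at hm
      have h5 := dev_eq S hS m hm.1
      unfold Sign.dv
      rw [h5]
      ring
    rw [h4]
    have hlog : 0 < Real.log M := Real.log_pos (by exact_mod_cast (by omega : 1 < M))
    have h6 : 0 ≤ (S.card : ℝ) / Real.log M ^ A := by positivity
    have h7 := mul_nonneg hC.le h6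
    nlinarith
  · have h1 := Sign.conv_bound S (fun x => angle x.1 x.2) (fun x _ => angle_mem _ _) D
      (fun α β h0 h1 h2 => by
        have := hD α β h0 h1 h2
        rwa [inArc_eq, st_eq] at this) m hm
    rw [dev_eq S hS m hm] at h1
    linarith
  · classical
    have hw := pr_card a ha
    have hw0 : ∀ᶠ N : ℕ in atTop, (0 : ℝ) < Nat.primeCounting N :=
      (tendsto_natCast_atTop_atTop.comp Nat.tendsto_primeCounting).eventually_gt_atTop 0
    have h1 := Sign.crit (pr a) (fun p => angle p a) (fun N p _ => angle_mem _ _)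
      (fun N => (Nat.primeCounting N : ℝ)) hw hw0
    have e1 : ∀ α β : ℝ, ∀ N, primeCount a (fun p => α ≤ angle p a ∧ angle p a ≤ β) N =
        Sign.ct (pr a N) (fun p => angle p a) α β := by
      intro α β N
      unfold primeCount Sign.ct pr
      rw [filter_filter]
      congr 1
      ext p
      simp only [mem_filter, and_assoc]
    simp only [e1, st_eq]
    refine h1.trans (forall_congr' fun m => imp_congr_right fun hm => ?_)
    have e2 : ∀ N, (primeCount a (fun p => 0 < kloostermanExt p m a) N : ℝ) =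
        ∑ p ∈ pr a N, (if 0 < kloostermanExt p m a then (1 : ℝ) else 0) := by
      intro N
      have e : primeCount a (fun p => 0 < kloostermanExt p m a) N =
          ((pr a N).filter fun p => 0 < kloostermanExt p m a).card := by
        unfold primeCount pr
        rw [filter_filter]
        congr 1
        ext p
        simp only [mem_filter, and_assoc]
      rw [e, card_filter]
      push_cast
      rfl
    have e3 : ∀ N, 2 * ((primeCount a (fun p => 0 < kloostermanExt p m a) N : ℝ) -
        (pr a N).card * freq m) = (-1) ^ (m + 1) *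
        (∑ p ∈ pr a N, Real.sign (Real.cos (m * angle p a)) - (pr a N).card * Sign.sm m) :=
      fun N => sum_sign (pr a N) (fun p => p) (fun _ => a) (fun p hp => pr_mem hp) m hm _ (e2 N)
    have hs : ((-1 : ℝ) ^ (m + 1)) * ((-1 : ℝ) ^ (m + 1)) = 1 := by
      rw [← pow_add]
      exact Even.neg_one_pow ⟨m + 1, rfl⟩
    constructor
    · intro h
      have h2 := (((h.sub (hw.mul_const (Sign.sm m))).const_mul ((-1 : ℝ) ^ (m + 1))).div_const
        2).add (hw.mul_const (freq m))
      rw [one_mul, sub_self, mul_zero, zero_div, zero_add, one_mul] at h2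
      refine h2.congr fun N => ?_
      have h3 := e3 N
      have h4 : (primeCount a (fun p => 0 < kloostermanExt p m a) N : ℝ) =
          ((-1) ^ (m + 1) * (∑ p ∈ pr a N, Real.sign (Real.cos (m * angle p a)) -
            (pr a N).card * Sign.sm m)) / 2 + (pr a N).card * freq m := by linarith
      rw [h4]
      ring
    · intro h
      have h2 := (((h.sub (hw.mul_const (freq m))).const_mul (2 * (-1 : ℝ) ^ (m + 1)))).add
        (hw.mul_const (Sign.sm m))
      rw [one_mul, sub_self, mul_zero, zero_add, one_mul] at h2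
      refine h2.congr fun N => ?_
      have h3 := e3 N
      have h4 : ∑ p ∈ pr a N, Real.sign (Real.cos (m * angle p a)) =
          2 * (-1) ^ (m + 1) * ((primeCount a (fun p => 0 < kloostermanExt p m a) N : ℝ) -
          (pr a N).card * freq m) + (pr a N).card * Sign.sm m := by
        have h5 := congrArg (fun t => (-1 : ℝ) ^ (m + 1) * t) h3
        rw [← mul_assoc, ← mul_assoc, hs, one_mul] at h5
        linear_combination -h5
      rw [h4]
      ring

end Pool.Agent.Results.MP_6ea630_nt.SignsOfLiftedSums
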