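import Pool.Agent.Run7.h876.SW.Fin

/-!
# The normal law of the sums of Kloosterman sums over the primes, uniformly in arbitrary weights

For `F = ℚ` and `ψ_p(x) = e(x / p)` the sum `kloosterman (ψ_p) (b a)` is the Kloosterman sum `S(b a, 1; p)` of the question.
Katz asks whether the angles `θ_p(a)`, `S(a, 1; p) = 2 √p cos θ_p(a)`, are equidistributed for the Sato-Tate measure as `p` varies,
for each fixed `a ≠ 0`; this means that `∑_{p ≤ x} U_n(cos θ_p(a)) = o(π(x))` for all `n ≥ 1`, with the Chebyshev polynomials
`U_n`. The first two of them are `U_1(cos θ_p(a)) = S(a, 1; p) / √p` and `U_2(cos θ_p(a)) = S(a, 1; p)² / p - 1`. One expects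
that the values are independent for different `p`, that `U_1` and `U_2` are not correlated, and that this holds also for different
multiples `b_i a` at the same `p`. We show that for the integers `a` in boxes the sums of these values are normally distributed with
the variance predicted by this, and this with ARBITRARY weights on the primes, on the multiples and on the two characters. Let

`S(a) = ∑_p ∑_i (w_i(p) U_1(cos θ_p(b_i a)) + w_i'(p) U_2(cos θ_p(b_i a)))`, `V = ∑_p ∑_i (w_i(p)² + w_i'(p)²)`, `p ≤ Z`,

for any real `w_i(p)`, `w_i'(p)` in `[-1, 1]`, with different nonzero integers `b_1, ..., b_r`.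

1. `P(S(a) ≤ t √V) → Φ(t)` as `V → ∞`, over the integers `a` with `|a| ≤ H`, `H ≥ Z^C` (`C` depends on the precision only),
uniformly in `Z`, in `H` and in the weights.
2. `P(|S(a)| ≥ y √V) ≤ A exp(-y² / A)` for all `y ≥ 0`, all `Z`, all weights with `V ≥ V₀` and all `H ≥ Z^(A (1 + y²))`.

For example the weights may be the indicator functions of arbitrary sets of primes, different ones for the two characters. All
this is proved over every number field `F`, for any choice of the nontrivial additive characters `ψ_v` of the residue fields.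
Proof. The moments `∑_t K(b t)² K(b' t)²` and `∑_t K(b t)² K(b' t)` over a finite field are calculated by Plancherel's formula and by
counting the points of the conics `v (1 - v) = λ u (1 - u)`; Weil's bound is in the starting library. The values at different
places are nearly independent: moments up to the order `2 k` over a box with side at least `Z^(6 k + 1)` are compared with those of
independent random variables, for which the exponential moments are bounded; `k` is a constant in (1) and a multiple of `y²` in (2).
-/

set_option autoImplicit false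
open NumberField IsDedekindDomain

namespace Pool.Agent.Results.MP_6ea630_nt.UniformNormalLaw

open Run7.h876.SW
open Run7.h876.MM (kv instFieldKv instFintypeKv)
open Run7.h9.BS (prop Phi)

/-- **The sums of Kloosterman sums with arbitrary weights are normally distributed.** -/
theorem result (F : Type) [Field F] [NumberField F] (ι : Type) [Fintype ι] [DecidableEq ι] (ω : Module.Basis ι ℤ (𝓞 F))
    (ψ : ∀ v : HeightOneSpectrum (𝓞 F), AddChar (kv v) ℂ) (hψ : ∀ v, (ψ v).IsPrimitive)
    (r : ℕ) (b : Fin r → 𝓞 F) (hb : Function.Injective b) (hb0 : ∀ i, b i ≠ 0) :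
    (∀ t ε : ℝ, 0 < ε → ∃ C : ℕ, ∃ V₀ : ℝ, ∀ (Z : ℕ) (w : Fin r × Fin 2 → HeightOneSpectrum (𝓞 F) → ℝ), (∀ p v, |w p v| ≤ 1) →
      V₀ ≤ jointVar w Z → ∀ H : Unit → ℕ, (∀ j, Z ^ C ≤ H j) →
        |prop ω H Set.univ (fun a => jointSum ψ b w Z (a ()) ≤ t * Real.sqrt (jointVar w Z)) - Phi t| ≤ ε) ∧
    (∃ A : ℝ, 0 < A ∧ ∃ V₀ : ℝ, ∀ (Z : ℕ) (w : Fin r × Fin 2 → HeightOneSpectrum (𝓞 F) → ℝ), (∀ p v, |w p v| ≤ 1) →
      V₀ ≤ jointVar w Z → ∀ y : ℝ, 0 ≤ y → ∀ H : Unit → ℕ, (∀ j, (Z : ℝ) ^ (A * (1 + y ^ 2)) ≤ H j) →
        prop ω H Set.univ (fun a => y * Real.sqrt (jointVar w Z) ≤ |jointSum ψ b w Z (a ())|) ≤ A * Real.exp (-(y ^ 2 / A))) :=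
  ⟨fun t _ hε => kl_clt ω hψ hb hb0 t hε, kl_tail ω hψ hb hb0⟩

end Pool.Agent.Results.MP_6ea630_nt.UniformNormalLaw
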