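import Pool.Agent.Run7.h844.RP.PwG2

/-!
# The Kloosterman angles at `m` consecutive primes for almost all values of generalised polynomials at primes: all boxes, with
square-root error against the finite-field model

From Mathlib: `Nat.nth Nat.Prime k`: the prime with the index `k`, starting with `k = 0`; `Set.OrdConnected`: intervals.

Method: exponential sums over primes with the phase of a generalised polynomial: derivative bounds uniform in the
coefficients, van der Corput differencing of all orders, bilinear sums, Vaughan's identity (after `Pool.Agent.H895R3.NK`,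
`Pool.Agent.H373R2.T7`), with a power saving at all frequencies up to a power, and a discrete Fejér kernel for the passage to
the integer parts (library `Pool.Agent.Run7.h844.RP`). So the values are uniformly distributed in residue classes
with a power saving, for all moduli up to a power. The high moments and the passage to all boxes follow the starting files
(`Pool.Agent.TH869.SQ`), where the arguments are all the integers.
-/

set_option autoImplicit false

namespace Pool.Agent.Results.MP_6ea630_nt.ValuesAtPrimes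

open Finset Filter Polynomial

/-- The generalised polynomial `∑ a x * t ^ x`, `x ∈ F`, with real exponents and coefficients. -/
noncomputable def genPoly (F : Finset ℝ) (a : ℝ → ℝ) (t : ℝ) : ℝ := ∑ x ∈ F, a x * t ^ x

/-- `c` is the largest exponent; it is positive and not an integer, and its coefficient is not zero. -/
def Leading (F : Finset ℝ) (a : ℝ → ℝ) (c : ℝ) : Prop :=
  c ∈ F ∧ (∀ x ∈ F, x ≤ c) ∧ 0 < c ∧ (∀ m : ℕ, c ≠ m) ∧ a c ≠ 0

open Classical in
/-- Almost all the integers `t = ⌊g(q) + z⌋`, where `N < q ≤ 2 N` is prime, up to a proportion of at most `τ` of these primes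
`q`, have the property `P`. -/
def Almost (g : ℝ → ℝ) (N : ℕ) (z τ : ℝ) (P : ℤ → Prop) : Prop :=
  (((Ioc N (2 * N)).filter (fun q : ℕ => q.Prime ∧ ¬ P ⌊g q + z⌋)).card : ℝ) ≤
    τ * ((Ioc N (2 * N)).filter Nat.Prime).card

/-- The Kloosterman sum `S(a, 1; p)`. -/
noncomputable def kloosterman (p : ℕ) (a : ℤ) : ℝ :=
  ∑ x ∈ Ico 1 p, Real.cos (2 * Real.pi * ((((a : ZMod p) * (x : ZMod p) + (x : ZMod p)⁻¹).val : ℕ) : ℝ) / (p : ℝ))

/-- The angle `θ / π` in `[0, 1]`, where `2 p ^ (1 / 2) cos θ = S(a, 1; p)`, and `1 / 2` if `p` divides `a`. -/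
noncomputable def angle (p : ℕ) (a : ℤ) : ℝ :=
  if (p : ℤ) ∣ a then 1 / 2 else Real.arccos (kloosterman p a / (2 * √(p : ℝ))) / Real.pi

open Classical in
/-- The number of the indices `k < K` for which the angles at the `s` consecutive primes with the indices
`k, ..., k + s - 1` (the primes are numbered from `0`) are in the sets `I 0, ..., I (s - 1)`. -/
noncomputable def boxCount {s : ℕ} (I : Fin s → Set ℝ) (K : ℕ) (a : ℤ) : ℕ :=
  ((range K).filter (fun k => ∀ i : Fin s, angle (Nat.nth Nat.Prime (k + i)) a ∈ I i)).card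

open Classical in
/-- The proportion of the residues `t` modulo `p` for which the angle at `P(t)` is in `S`. -/
noncomputable def proportion (P : ℤ[X]) (p : ℕ) (S : Set ℝ) : ℝ :=
  (((range p).filter (fun t : ℕ => angle p (P.eval (t : ℤ)) ∈ S)).card : ℝ) / p

/-- The expected number: the sum over `k < K` of the product of the proportions at the `s` primes. -/
noncomputable def boxModel {s : ℕ} (P : ℤ[X]) (I : Fin s → Set ℝ) (K : ℕ) : ℝ :=
  ∑ k ∈ range K, ∏ i : Fin s, proportion P (Nat.nth Nat.Prime (k + i)) (I i)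

/-- the Kloosterman sum as a function on the residue classes -/
noncomputable def kz (p : ℕ) (z : ZMod p) : ℝ :=
  ∑ x ∈ Ico 1 p, Real.cos (2 * Real.pi * (((z * (x : ZMod p) + (x : ZMod p)⁻¹).val : ℕ) : ℝ) / (p : ℝ))

lemma k_eq (p : ℕ) (a : ℤ) : kloosterman p a = kz p (a : ZMod p) := rfl

lemma angle_congr (p : ℕ) {a b : ℤ} (h : (p : ℤ) ∣ a - b) : angle p a = angle p b := by
  have e : (a : ZMod p) = (b : ZMod p) := by
    rw [← sub_eq_zero, ← Int.cast_sub, ZMod.intCast_zmod_eq_zero_iff_dvd]
    exact h
  unfold angle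
  rw [k_eq, k_eq, e]
  by_cases h1 : (p : ℤ) ∣ b
  · rw [if_pos h1, if_pos ((dvd_iff_dvd_of_dvd_sub h).2 h1)]
  · rw [if_neg h1, if_neg (fun h2 => h1 ((dvd_iff_dvd_of_dvd_sub h).1 h2))]

/-- Let `g(t) = ∑ b x t ^ x` be a generalised polynomial whose largest exponent `c` is positive and not an integer, and let
`m ≥ 1` and `δ > 0`. There are `θ > 0` and `C` such that for all sufficiently large `N`, all real numbers `z` and ALL polynomials
`P ∈ ℤ[T]`, almost all the integers `v = ⌊g(q) + z⌋`, where `q` runs over the primes `N < q ≤ 2 N`, up to a proportion of at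
most `N ^ (-θ)` of the `q`, have the following property, with `a = P(v)`: for every `K ≤ N ^ θ` and every product of `m`
intervals, the number of the `k < K` such that the angles of `S(a, 1; p)` at the `m` consecutive primes with the numbers
`k, ..., k + m - 1` are in the intervals differs from the expected number (the sum over `k < K` of the product of the
proportions, over the residues `t` modulo the primes, for the angles of `S(P(t), 1; p)`) by at most
`C K ^ (1 / 2 + δ) (1 + log N) ^ (1 / 2)`. -/
theorem result (F : Finset ℝ) (b : ℝ → ℝ) (c : ℝ) (hF : Leading F b c) :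
    ∀ m : ℕ, 1 ≤ m → ∀ δ : ℝ, 0 < δ → ∃ θ C : ℝ, 0 < θ ∧ 0 < C ∧ ∃ N₀ : ℕ, ∀ N : ℕ, N₀ ≤ N → ∀ (z : ℝ) (P : ℤ[X]),
        Almost (genPoly F b) N z ((N : ℝ) ^ (-θ)) (fun v => ∀ K : ℕ, (K : ℝ) ≤ (N : ℝ) ^ θ →
          ∀ I : Fin m → Set ℝ, (∀ i, (I i).OrdConnected) →
            |(boxCount I K (P.eval v) : ℝ) - boxModel P I K| ≤
              C * ((K : ℝ) ^ (1 / 2 + δ) * √(1 + Real.log N))) := by
  classical
  intro m hm δ hδ
  obtain ⟨θ, C, h1, h2, N₀, H⟩ := Pool.Agent.Run7.h844.RP.primes_consec F c hF.1 hF.2.2.2.1 hF.2.2.1 hF.2.1 b hF.2.2.2.2 m hm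
    δ hδ
  refine ⟨θ, C, h1, h2, N₀, fun N hN z P => ?_⟩
  have hE := H N hN (fun p n => angle p (P.eval n)) (by
    intro p n
    apply angle_congr
    have e : (n + p : ℤ) - n = p := by ring
    have := P.sub_dvd_eval_sub (n + p : ℤ) n
    rwa [e] at this) z
  unfold Almost
  refine le_trans (Nat.cast_le.2 (card_le_card fun n hn => ?_)) hE
  rw [mem_filter] at hn
  rw [mem_filter, Pool.Agent.Run7.h844.RP.PB, mem_filter]
  refine ⟨⟨hn.1, hn.2.1⟩, fun hcon => hn.2.2 ?_⟩
  intro K hK I hI
  have h := hcon K hK I hI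
  rw [sum_sub_distrib] at h
  have e1 : (boxCount I K (P.eval ⌊genPoly F b n + z⌋) : ℝ) = ∑ k ∈ range K,
      Pool.Agent.TH869.SQ.ind I (fun i : Fin m => angle (Pool.Agent.TH869.SQ.pr (k + i))
        (P.eval (Pool.Agent.Run7.h844.RP.vz F b z n))) := by
    unfold boxCount Pool.Agent.TH869.SQ.ind Pool.Agent.TH869.SQ.pr
    rw [sum_boole]
    rfl
  have e2 : boxModel P I K = ∑ k ∈ range K, ∏ i : Fin m,
      Pool.Agent.TH869.SQ.mean (Pool.Agent.TH869.SQ.pr (k + i)) (fun t =>
        Pool.Agent.TH869.SQ.ind1 (I i) (angle (Pool.Agent.TH869.SQ.pr (k + i)) (P.eval (t : ℤ)))) := by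
    unfold boxModel proportion Pool.Agent.TH869.SQ.mean Pool.Agent.TH869.SQ.ind1 Pool.Agent.TH869.SQ.pr
    refine sum_congr rfl fun k _ => prod_congr rfl fun i _ => ?_
    rw [sum_boole]
  rw [e1, e2]
  exact h

end Pool.Agent.Results.MP_6ea630_nt.ValuesAtPrimes
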